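import Pool.Agent.W829.RP.Defs

/-!
# Project RP, part DEF: the missed volume is the volume deficit
-/

set_option autoImplicit false

open MeasureTheory Set Module
open scoped ENNReal

namespace Pool.Agent.W933.RPDEF

open Pool.Agent.W829.RP

theorem dfc : S_HC → S_DEF := by
  intro hHC V _ _ _ _ _ _ K hK n
  obtain ⟨hconv, hcomp, hint⟩ := hK
  have hK0 : volume K ≠ 0 := (MeasureTheory.Measure.measure_pos_of_nonempty_interior volume hint).ne'
  have hKt : volume K ≠ ∞ := hcomp.measure_lt_top.ne
  have hprob : IsProbabilityMeasure (unif K) := by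
    refine ⟨?_⟩
    unfold unif
    rw [Measure.smul_apply, Measure.restrict_apply_univ, smul_eq_mul,
      ENNReal.inv_mul_cancel hK0 hKt]
  have hprob' : IsProbabilityMeasure (samp K n) := by
    unfold samp
    infer_instance
  have hmem : ∀ᵐ ω ∂(samp K n), ∀ i, ω i ∈ K := by
    rw [ae_all_iff]
    intro i
    have h1 : ∀ᵐ x ∂(unif K), x ∈ K := by
      unfold unif
      exact Measure.ae_smul_measure (ae_restrict_mem hcomp.measurableSet) _
    have h2 : MeasurePreserving (Function.eval i) (samp K n) (unif K) :=
      measurePreserving_eval (fun _ : Fin n => unif K) i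
    exact h2.quasiMeasurePreserving.ae h1
  have hsub : ∀ ω : Fin n → V, (∀ i, ω i ∈ K) → hull ω ⊆ K := by
    intro ω hω
    exact convexHull_min (by rintro _ ⟨i, rfl⟩; exact hω i) hconv
  have hmeas : ∀ ω : Fin n → V, MeasurableSet (hull ω) := by
    intro ω
    exact ((Set.finite_range ω).isCompact_convexHull ℝ).measurableSet
  have hm : Measurable (fun ω : Fin n → V => volume (hull ω)) := by
    have h1 := (hHC V n).measurableSet
    exact measurable_measure_prodMk_right h1
  have hle : ∀ᵐ ω ∂(samp K n), volume (hull ω) ≤ volume K := by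
    filter_upwards [hmem] with ω hω
    exact measure_mono (hsub ω hω)
  have hfin : ∫⁻ ω, volume (hull ω) ∂(samp K n) ≠ ∞ := by
    refine ne_top_of_le_ne_top hKt ?_
    refine (lintegral_mono_ae hle).trans ?_
    rw [lintegral_const, measure_univ, mul_one]
  unfold miss meanVol
  have h1 : ∫⁻ ω, volume (K \ hull ω) ∂(samp K n) =
      ∫⁻ ω, (volume K - volume (hull ω)) ∂(samp K n) := by
    refine lintegral_congr_ae ?_
    filter_upwards [hmem] with ω hω
    exact measure_sdiff (hsub ω hω) (hmeas ω).nullMeasurableSet
      (ne_top_of_le_ne_top hKt (measure_mono (hsub ω hω)))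
  rw [h1, lintegral_sub hm hfin hle, lintegral_const, measure_univ, mul_one]

end Pool.Agent.W933.RPDEF
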