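import Pool.Agent.W601.RP.Stm2

set_option autoImplicit false
open scoped Classical
open Filter Topology

namespace Pool.Agent.W933.RPF

open Pool.Agent.W601.RP

/-- An element of norm `1/2` is mapped to `-1`. -/
theorem toCircle_half (y : TT) (h : ‖y‖ = 1 / 2) :
    ((AddCircle.toCircle y : Circle) : ℂ).re = -1 := by
  induction y using QuotientAddGroup.induction_on with
  | H x =>
    have h1 : |x - round x| = 1 / 2 := by
      rw [← UnitAddCircle.norm_eq]; exact h
    have h2 : AddCircle.toCircle (x : TT) = Circle.exp (2 * Real.pi / 1 * x) :=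
      AddCircle.toCircle_apply_mk x
    have h2' : AddCircle.toCircle (QuotientAddGroup.mk x : TT) = Circle.exp (2 * Real.pi / 1 * x) :=
      h2
    rw [h2', Circle.coe_exp, Complex.exp_ofReal_mul_I_re]
    have h3 : 2 * Real.pi / 1 * x = 2 * Real.pi * (x - round x) + (round x : ℤ) * (2 * Real.pi) := by
      ring
    rw [h3, Real.cos_add_int_mul_two_pi]
    rcases abs_eq (by norm_num : (0 : ℝ) ≤ 1 / 2) |>.mp h1 with h4 | h4
    · rw [h4]
      have : 2 * Real.pi * (1 / 2) = Real.pi := by ring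
      rw [this, Real.cos_pi]
    · rw [h4]
      have : 2 * Real.pi * (-(1 / 2)) = -Real.pi := by ring
      rw [this, Real.cos_neg, Real.cos_pi]

theorem pr_single (t : ℕ) (h : ℕ → TT) : pr (Finsupp.single t 1) h = h t := by
  unfold pr
  rw [Finsupp.sum_single_index]
  · simp
  · simp

theorem isOpen_re : IsOpen {c : Circle | 0 < (c : ℂ).re} := by
  exact isOpen_lt continuous_const (Complex.continuous_re.comp continuous_subtype_val)

theorem isOpen_mapsTo {G : Type} [CommGroup G] [TopologicalSpace G] (K : Set G) (hK : IsCompact K) :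
    IsOpen {ψ : PontryaginDual G | Set.MapsTo (fun g => ψ g) K {c : Circle | 0 < (c : ℂ).re}} := by
  have h := ContinuousMap.isOpen_setOfPred_mapsTo hK isOpen_re
  exact h.preimage (ContinuousMonoidHom.isInducing_toContinuousMap G Circle).continuous

theorem finc : S_CH → S_KILL → S_KA → S_SEQ → S_GS → S_FINC := by
  intro hCH hKILL hKA hSEQ hGS C hC
  by_contra hinf
  have hinf' : C.Infinite := hinf
  have : Countable ↥GS := hGS.2.2.2.1
  obtain ⟨z, hzinj, hzC⟩ : ∃ z : ℕ → PontryaginDual (Multiplicative ↥GS),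
      Function.Injective z ∧ ∀ n, z n ∈ C :=
    ⟨fun n => (hinf'.natEmbedding C n : PontryaginDual (Multiplicative ↥GS)),
      fun a b hab => (hinf'.natEmbedding C).injective (Subtype.ext hab),
      fun n => (hinf'.natEmbedding C n).2⟩
  let f : PontryaginDual (Multiplicative ↥GS) → (↥GS → Circle) :=
    fun χ g => χ (Multiplicative.ofAdd g)
  have hfc : Continuous f := continuous_pi fun g =>
    (continuous_eval_const (F := ContinuousMonoidHom (Multiplicative ↥GS) Circle)
      (Multiplicative.ofAdd g))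
  have hfi : Function.Injective f := fun χ ψ h =>
    PontryaginDual.ext fun a => congrFun h (Multiplicative.toAdd a)
  have : TopologicalSpace.MetrizableSpace (↥GS → Circle) :=
    TopologicalSpace.metrizableSpace_of_t3_secondCountable _
  obtain ⟨a, haC, φ, hφ, hlim⟩ := hSEQ _ _ f hfc hfi C hC z hzC
  choose ev hev using hCH.1
  -- the differences
  let g : ℕ → (ℕ → TT) := fun n => ((ev (z (φ n)) - ev a : ↥H) : ℕ → TT)
  have hgH : ∀ n, g n ∈ H := fun n => (ev (z (φ n)) - ev a).2
  have hginj : Function.Injective g := by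
    intro m n hmn
    have h1 : ev (z (φ m)) - ev a = ev (z (φ n)) - ev a := Subtype.ext hmn
    have h2 : ev (z (φ m)) = ev (z (φ n)) := sub_left_injective h1
    apply hφ.injective
    apply hzinj
    apply PontryaginDual.ext
    intro b
    have h3 := hev (z (φ m)) (Multiplicative.toAdd b)
    have h4 := hev (z (φ n)) (Multiplicative.toAdd b)
    rw [h2] at h3
    exact h3.trans h4.symm
  obtain ⟨N0, hN0⟩ : ∃ N0, ∀ n, N0 ≤ n → g n ≠ 0 := by
    by_cases h0 : ∃ n, g n = 0
    · obtain ⟨n, hn⟩ := h0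
      refine ⟨n + 1, fun m hm hm0 => ?_⟩
      have : m = n := hginj (hm0.trans hn.symm)
      omega
    · exact ⟨0, fun n _ hn => h0 ⟨n, hn⟩⟩
  obtain ⟨A, -, hAch, hA⟩ := hKILL (fun n => g (n + N0)) (fun n => hgH _)
    (fun n => hN0 _ (by omega)) (fun m n h => by
      have := hginj h
      omega)
  have hK := hKA A hAch
  have hK' := hK.image continuous_ofAdd
  have hopen := isOpen_mapsTo _ hK'
  have hlim1 : Tendsto (fun n => z (φ n) / a) atTop (𝓝 (1 : PontryaginDual (Multiplicative ↥GS))) := by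
    have := hlim.div_const' a
    rwa [div_self'] at this
  have hev1 : ∀ᶠ n in atTop, (z (φ n) / a) ∈ {ψ : PontryaginDual (Multiplicative ↥GS) |
      Set.MapsTo (fun g => ψ g) (Multiplicative.ofAdd '' ({g : ↥GS | (g : ↥H → TT) = 0 ∨
        ∃ t ∈ A, (g : ↥H → TT) = phi (Finsupp.single t 1)})) {c : Circle | 0 < (c : ℂ).re}} := by
    apply hlim1.eventually
    apply hopen.mem_nhds
    intro b _
    simp
  obtain ⟨n0, hn0⟩ := eventually_atTop.mp hev1
  obtain ⟨j, hj, t, ht, hjt⟩ := hA n0
  have h1 := hn0 (j + N0) (by omega)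
  have hmem : phi (Finsupp.single t 1) ∈ GS := hGS.2.1 _
  have h2 := h1 (x := Multiplicative.ofAdd (⟨phi (Finsupp.single t 1), hmem⟩ : ↥GS))
    ⟨_, Or.inr ⟨t, ht, rfl⟩, rfl⟩
  have h3 : (z (φ (j + N0)) / a) (Multiplicative.ofAdd (⟨phi (Finsupp.single t 1), hmem⟩ : ↥GS)) =
      AddCircle.toCircle (g (j + N0) t) := by
    have h4 : (z (φ (j + N0)) / a) (Multiplicative.ofAdd (⟨phi (Finsupp.single t 1), hmem⟩ : ↥GS)) *
        a (Multiplicative.ofAdd (⟨phi (Finsupp.single t 1), hmem⟩ : ↥GS)) =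
        z (φ (j + N0)) (Multiplicative.ofAdd (⟨phi (Finsupp.single t 1), hmem⟩ : ↥GS)) := by
      have h5 : (z (φ (j + N0)) / a) * a = z (φ (j + N0)) := div_mul_cancel _ _
      exact congrArg (fun ψ : PontryaginDual (Multiplicative ↥GS) =>
        ψ (Multiplicative.ofAdd (⟨phi (Finsupp.single t 1), hmem⟩ : ↥GS))) h5
    rw [hev a, hev (z (φ (j + N0)))] at h4
    have h6 : ∀ h : ↥H, (((⟨phi (Finsupp.single t 1), hmem⟩ : ↥GS)) : ↥H → TT) h =
        (h : ℕ → TT) t := fun h => pr_single t _
    rw [h6, h6] at h4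
    have h7 : (ev (z (φ (j + N0))) : ℕ → TT) t = g (j + N0) t + (ev a : ℕ → TT) t := by
      simp [g]
    rw [h7, AddCircle.toCircle_add] at h4
    exact mul_right_cancel h4
  have h8 : 0 < (((z (φ (j + N0)) / a)
    (Multiplicative.ofAdd (⟨phi (Finsupp.single t 1), hmem⟩ : ↥GS)) : Circle) : ℂ).re := h2
  rw [h3, toCircle_half _ hjt] at h8
  norm_num at h8

end Pool.Agent.W933.RPF
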